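import Pool.Agent.MWBN.Stmts
import Pool.Agent.Helper28_MWS.SWV

/-!
Row SWN of squad MWBN (twin of MWS.SWV by helper28, whose lemmas are used).
-/

set_option autoImplicit false

namespace Pool.Agent.MWBN.H3

open Pool.Agent.Helper14_MV Pool.Agent.Helper2_MV Pool.Agent.MVO Pool.Agent.MWL Pool.Agent.MWS
open Pool.Agent.MWS.H30E Pool.Agent.MWS.H28

variable {n k : ℕ}

theorem smn_of_eqt {B B' : ℕ → List ℕ} (hB : OkB k B) (hB' : OkB k B') (h : MWHP.EqT n k B B') :
    SmN n k B B' := by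
  intro j hj c
  by_cases hc : NS k c
  · rcases h c hc j hj with h1 | ⟨h1, h2, h3⟩
    · have h1 : (B j).count c = (B' j).count c := h1
      refine ⟨?_, by rw [h1]⟩
      rw [← List.count_pos_iff, ← List.count_pos_iff, h1]
    · have h1 : 2 ≤ (B j).count c := h1
      have h2 : 2 ≤ (B' j).count c := h2
      have h3 : (B j).count c ≡ (B' j).count c [MOD n] := h3
      refine ⟨?_, h3⟩
      rw [← List.count_pos_iff, ← List.count_pos_iff]
      exact iff_of_true (by omega) (by omega)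
  · have h1 : c ∉ B j := fun hm => hc (hB.ok j hj c hm)
    have h2 : c ∉ B' j := fun hm => hc (hB'.ok j hj c hm)
    refine ⟨iff_of_false h1 h2, ?_⟩
    rw [List.count_eq_zero.2 h1, List.count_eq_zero.2 h2]

theorem sml_of_smn {B B' : ℕ → List ℕ} (h : SmN n k B B') : SmL k B B' := fun j hj c => (h j hj c).1

theorem rs_smn {x y : ℕ} (hxy : x ≠ y) {B B' : ℕ → List ℕ} (h : SmN n k B B') :
    SmN n k (rs x y B) (rs x y B') := by
  intro j hj c
  refine ⟨rs_sml (sml_of_smn h) j hj c, ?_⟩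
  have e0 : ∀ C : ℕ → List ℕ, (rs x y C j).count 0 = (C j).count x := fun C =>
    congrFun (rs_ty hxy C).1 j
  have e1 : ∀ C : ℕ → List ℕ, (rs x y C j).count 1 = (C j).count y := fun C =>
    congrFun (rs_ty hxy C).2 j
  rcases Nat.lt_or_ge c 2 with hc | hc
  · rcases Nat.lt_or_ge c 1 with hc1 | hc1
    · have : c = 0 := by omega
      subst this
      rw [e0, e0]
      exact (h j hj x).2
    · have : c = 1 := by omega
      subst this
      rw [e1, e1]
      exact (h j hj y).2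
  · have h1 : ∀ C : ℕ → List ℕ, (rs x y C j).count c = 0 := by
      intro C
      refine List.count_eq_zero.2 fun hm => ?_
      rcases rs_two (k := k) j hj c hm with h1 | h1 <;> omega
    rw [h1, h1]

/-- row SWN -/
theorem swn (hbfr : MWS.BfrStmt) (hnfn : NfnStmt) (htwn : TwnStmt) : SwnStmt := by
  intro n V β hV hC θ hθ _ k B B' hB hB' hE hr
  have hS : SmN n k B B' := smn_of_eqt hB hB' hE
  have hL : SmL k B B' := sml_of_smn hS
  refine hnfn n V β θ hV hC hθ k B B' hB hB' hS ?_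
  intro x y i hxy hv hd
  obtain ⟨hi, hx, hy⟩ := hV.mem _ _ _ _ hv
  have hx' : x ∈ B i := List.count_pos_iff.1 (Nat.pos_of_ne_zero hx)
  have hy' : y ∈ B i := List.count_pos_iff.1 (Nat.pos_of_ne_zero hy)
  have hx2 : x ∈ B' i := (hL i hi x).1 hx'
  have hy2 : y ∈ B' i := (hL i hi y).1 hy'
  have hrr := rs_rr hB.ok hB'.ok (hr x y (hB.ok i hi x hx') (hB.ok i hi y hy') hxy)
  have hvC : V k (ty (rs x y B) 0) (ty (rs x y B) 1) i := by
    rw [(rs_ty hxy B).1, (rs_ty hxy B).2]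
    exact hv
  have hL' : SmL k B' B := fun j hj c => (hL j hj c).symm
  have hS' : SmN n k B' B := fun j hj c => ⟨(hS j hj c).1.symm, (hS j hj c).2.symm⟩
  by_cases hb : Bef (B i) x y
  · have hb' : ¬ Bef (B' i) x y := fun h => hd (iff_of_true hb h)
    have h3 := htwn n V β θ hV hC hθ k _ _ (rs_ok hxy hB) (rs_ok hxy hB') rs_two rs_two
      (rs_smn hxy hS) i hvC hrr ((rs_bef hbfr hxy hx' hy').2 hb)
      (fun h => hb' ((rs_bef hbfr hxy hx2 hy2).1 h))
    rw [(rs_ty hxy B).1, (rs_ty hxy B).2] at h3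
    exact h3
  · have hb' : Bef (B' i) x y := by
      by_contra h
      exact hd (iff_of_false hb h)
    have e1 : ∀ j ≤ k, (ty B x j = 0 ↔ ty B' x j = 0) ∧ (ty B y j = 0 ↔ ty B' y j = 0) :=
      fun j hj => ⟨sml_ty hL x j hj, sml_ty hL y j hj⟩
    have e2 : ∀ j ≤ k, (ty B' x j = 0 ↔ ty B x j = 0) ∧ (ty B' y j = 0 ↔ ty B y j = 0) :=
      fun j hj => ⟨sml_ty hL' x j hj, sml_ty hL' y j hj⟩
    have hvC' : V k (ty (rs x y B') 0) (ty (rs x y B') 1) i := by
      rw [(rs_ty hxy B').1, (rs_ty hxy B').2]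
      exact hV.ext k _ _ _ _ i e1 hv
    have h3 := htwn n V β θ hV hC hθ k _ _ (rs_ok hxy hB') (rs_ok hxy hB) rs_two rs_two
      (rs_smn hxy hS') i hvC' hrr.symm ((rs_bef hbfr hxy hx2 hy2).2 hb')
      (fun h => hb ((rs_bef hbfr hxy hx' hy').1 h))
    rw [(rs_ty hxy B').1, (rs_ty hxy B').2] at h3
    exact te_ext e2 h3

end Pool.Agent.MWBN.H3
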